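import Mathlib

/-!
# MP_bae8ce_ag, module S9 : matrices with two given rows
-/

set_option autoImplicit false

namespace PL

theorem s9_aux (p : ℕ) [Fact p.Prime] (r : ℕ) (b c : Fin (r + 2) → ZMod p)
    (h : LinearIndependent (ZMod p) ![b, c]) (n : ℕ) (hn : n ≤ r) :
    ∃ v : Fin (n + 2) → Fin (r + 2) → ZMod p, LinearIndependent (ZMod p) v ∧ v 0 = b ∧
      v 1 = c := by
  induction n with
  | zero => exact ⟨![b, c], h, rfl, rfl⟩
  | succ n ih =>
    obtain ⟨v, hv, h0, h1⟩ := ih (by omega)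
    obtain ⟨x, hx⟩ := exists_linearIndependent_snoc_of_lt_finrank hv (by
      rw [Module.finrank_fin_fun]
      omega)
    refine ⟨Fin.snoc v x, hx, ?_, ?_⟩
    · rw [← h0]
      exact Fin.snoc_castSucc (α := fun _ => Fin (r + 2) → ZMod p) x v 0
    · rw [← h1]
      exact Fin.snoc_castSucc (α := fun _ => Fin (r + 2) → ZMod p) x v 1

theorem exists_rows (p : ℕ) [Fact p.Prime] (r : ℕ) (b c : Fin (r + 2) → ZMod p)
    (h : LinearIndependent (ZMod p) ![b, c]) :
    ∃ H : Matrix (Fin (r + 2)) (Fin (r + 2)) (ZMod p), IsUnit H.det ∧ H 0 = b ∧ H 1 = c := by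
  obtain ⟨v, hv, h0, h1⟩ := s9_aux p r b c h r le_rfl
  refine ⟨Matrix.of v, ?_, h0, h1⟩
  rw [← Matrix.isUnit_iff_isUnit_det, ← Matrix.linearIndependent_rows_iff_isUnit]
  exact hv

end PL
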