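import Pool.Agent.Helper91.PL.SBasic
import Pool.Agent.Helper15.PL.S7
import Pool.Agent.Helper15.PL.S10

/-!
# MP_bae8ce_ag, module S11 : vanishing of admissible functions satisfying the pencil relation
-/

set_option autoImplicit false
set_option linter.unusedSectionVars false

open Finset

namespace PL

noncomputable section

section

variable {k : Type} [Field k] [Fintype k] [DecidableEq k] {N : ℕ}

theorem s11_q : 1 < qq k := by
  unfold qq
  exact_mod_cast Fintype.one_lt_card

/-- The tuples in a hyperplane. -/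
theorem s11_hyper (a : Tup N k → ℝ) (ha : TInv a) (h0 : ∀ χ i, χ i = 0 → a χ = 0)
    (c : Fin N → k) (j : Fin N) (hj : c j ≠ 0) :
    ∑ χ, (if ∑ l, c l • χ l = 0 then a χ ^ 2 else 0) ≤ 1 / (qq k - 1) * nr a := by
  classical
  have hq : 0 < qq k - 1 := sub_pos.2 s11_q
  have hcard : ((univ.erase (0 : k)).card : ℝ) = qq k - 1 := by
    rw [Finset.card_erase_of_mem (Finset.mem_univ _), Finset.card_univ, qq,
      Nat.cast_sub (Fintype.card_pos), Nat.cast_one]
  rw [one_div, inv_mul_eq_div, le_div_iff₀ hq, ← hcard, mul_comm, ← nsmul_eq_mul,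
    ← Finset.sum_const]
  have h1 : ∀ s ∈ univ.erase (0 : k),
      ∑ χ : Tup N k, (if ∑ l, c l • χ l = 0 then a χ ^ 2 else 0) =
      ∑ χ : Tup N k, (if ∑ l, c l • χ l + (c j * (s - 1)) • χ j = 0 then a χ ^ 2 else 0) := by
    intro s hs
    have hs0 : s ≠ 0 := (Finset.mem_erase.1 hs).1
    have hinv : dg (N := N) j s * dg j s⁻¹ = 1 := by
      rw [dg_mul, mul_inv_cancel₀ hs0, dg_one]
    rw [← sum_act hinv (mul_one_comm' hinv)]
    refine Finset.sum_congr rfl fun χ _ => ?_
    rw [ha.act_dg j hs0]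
    have h2 : ∑ l, c l • act (dg j s) χ l = ∑ l, c l • χ l + (c j * (s - 1)) • χ j := by
      have h3 : ∀ l, c l • act (dg j s) χ l =
          c l • χ l + (if l = j then (c l * (s - 1)) • χ l else 0) := by
        intro l
        rw [act_dg]
        by_cases hl : l = j
        · subst hl
          simp only [Function.update_self, if_true]
          rw [smul_smul, ← add_smul]
          congr 1
          ring
        · simp [hl]
      rw [Finset.sum_congr rfl fun l _ => h3 l, Finset.sum_add_distrib, Finset.sum_ite_eq']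
      simp
    rw [h2]
  rw [Finset.sum_congr rfl h1, Finset.sum_comm]
  unfold nr
  refine Finset.sum_le_sum fun χ _ => ?_
  by_cases hχ : a χ = 0
  · simp [hχ]
  have hχj : χ j ≠ 0 := fun h => hχ (h0 χ j h)
  rw [← Finset.sum_filter, Finset.sum_const, nsmul_eq_mul]
  have h4 : ((univ.erase (0 : k)).filter
      fun s => ∑ l, c l • χ l + (c j * (s - 1)) • χ j = 0).card ≤ 1 := by
    rw [Finset.card_le_one]
    intro s hs t ht
    rw [Finset.mem_filter] at hs ht
    have h5 : (c j * (s - t)) • χ j = 0 := by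
      have h6 : (c j * (s - t)) • χ j = (∑ l, c l • χ l + (c j * (s - 1)) • χ j) -
          (∑ l, c l • χ l + (c j * (t - 1)) • χ j) := by
        rw [add_sub_add_left_eq_sub, ← sub_smul]
        congr 1
        ring
      rw [h6, hs.2, ht.2, sub_zero]
    rcases smul_eq_zero.1 h5 with h6 | h6
    · rcases mul_eq_zero.1 h6 with h7 | h7
      · exact absurd h7 hj
      · exact sub_eq_zero.1 h7
    · exact absurd h6 hχj
  have h5 : (((univ.erase (0 : k)).filter
      fun s => ∑ l, c l • χ l + (c j * (s - 1)) • χ j = 0).card : ℝ) ≤ 1 := by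
    exact_mod_cast h4
  calc _ ≤ 1 * a χ ^ 2 := mul_le_mul_of_nonneg_right h5 (sq_nonneg _)
    _ = a χ ^ 2 := one_mul _

open Classical in
/-- The tuples which are not full. -/
theorem s11_notfull (p : ℕ) [Fact p.Prime] [Algebra (ZMod p) k] (a : Tup N k → ℝ) (ha : TInv a)
    (h0 : ∀ χ i, χ i = 0 → a χ = 0) :
    ∑ χ, (if Full p χ then 0 else a χ ^ 2) ≤ (p : ℝ) ^ N / (qq k - 1) * nr a := by
  have h1 : ∀ χ : Tup N k, (if Full p χ then 0 else a χ ^ 2) ≤
      ∑ c ∈ univ.erase (0 : Fin N → ZMod p),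
        (if ∑ l, algebraMap (ZMod p) k (c l) • χ l = 0 then a χ ^ 2 else 0) := by
    intro χ
    split_ifs with h
    · exact Finset.sum_nonneg fun c _ => by split_ifs; exacts [sq_nonneg _, le_rfl]
    · unfold Full at h
      push Not at h
      obtain ⟨c, hc, hc'⟩ := h
      have h2 : a χ ^ 2 = (fun c : Fin N → ZMod p => (if ∑ l, algebraMap (ZMod p) k (c l) • χ l
          = 0 then a χ ^ 2 else 0)) c := by
        simp only [if_pos hc']
      refine h2.le.trans (Finset.single_le_sum
        (f := fun c : Fin N → ZMod p => (if ∑ l, algebraMap (ZMod p) k (c l) • χ l = 0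
          then a χ ^ 2 else 0))
        (fun c _ => by split_ifs; exacts [sq_nonneg _, le_rfl])
        (Finset.mem_erase.2 ⟨hc, Finset.mem_univ _⟩))
  refine (Finset.sum_le_sum fun χ _ => h1 χ).trans ?_
  rw [Finset.sum_comm]
  have hn := nr_nonneg a
  have hq : 0 < qq k - 1 := sub_pos.2 s11_q
  have h2 : ∀ c ∈ univ.erase (0 : Fin N → ZMod p), ∑ χ : Tup N k,
      (if ∑ l, algebraMap (ZMod p) k (c l) • χ l = 0 then a χ ^ 2 else 0) ≤
      1 / (qq k - 1) * nr a := by
    intro c hc
    have hc0 := (Finset.mem_erase.1 hc).1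
    obtain ⟨j, hj⟩ := Function.ne_iff.1 hc0
    apply s11_hyper a ha h0 _ j
    intro h
    exact hj ((map_eq_zero_iff _ (algebraMap (ZMod p) k).injective).1 h)
  refine (Finset.sum_le_sum h2).trans ?_
  rw [Finset.sum_const, nsmul_eq_mul]
  have h3 : ((univ.erase (0 : Fin N → ZMod p)).card : ℝ) ≤ (p : ℝ) ^ N := by
    have h4 : (univ.erase (0 : Fin N → ZMod p)).card ≤ p ^ N := by
      refine (Finset.card_le_univ _).trans ?_
      rw [Fintype.card_fun, ZMod.card, Fintype.card_fin]
    exact_mod_cast h4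
  calc ((univ.erase (0 : Fin N → ZMod p)).card : ℝ) * (1 / (qq k - 1) * nr a)
      ≤ (p : ℝ) ^ N * (1 / (qq k - 1) * nr a) :=
        mul_le_mul_of_nonneg_right h3 (mul_nonneg (by positivity) hn)
    _ = (p : ℝ) ^ N / (qq k - 1) * nr a := by ring

open Classical in
/-- The decomposition by patterns. -/
theorem s11_sum (Φ : Tup N k → ℝ) (h0 : ∀ χ i, χ i = 0 → Φ χ = 0) (F : ℝ → ℝ) (hF : F 0 = 0)
    (χ : Tup N k) : ∑ π : Fin N → Fin N → Bool, F (rs π Φ χ) = F (Φ χ) := by
  by_cases h : ∀ i, χ i ≠ 0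
  · rw [Finset.sum_eq_single (fun i j => decide (par (χ i) (χ j)))]
    · have h1 : HasPat (fun i j => decide (par (χ i) (χ j))) χ := ⟨h, fun i j => by simp⟩
      unfold rs
      rw [if_pos h1]
    · intro π _ hπ
      have h1 : ¬ HasPat π χ := by
        intro h1
        apply hπ
        funext i j
        rw [Bool.eq_iff_iff, ← h1.2 i j]
        simp
      unfold rs
      rw [if_neg h1, hF]
    · intro h1
      exact absurd (Finset.mem_univ _) h1
  · push Not at h
    obtain ⟨i, hi⟩ := h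
    rw [h0 χ i hi, hF]
    refine Finset.sum_eq_zero fun π _ => ?_
    have h1 : ¬ HasPat π χ := fun h1 => h1.1 i hi
    unfold rs
    rw [if_neg h1, hF]

theorem s11_pat_equiv {π : Fin N → Fin N → Bool} {χ : Tup N k} (h : HasPat π χ) :
    Equivalence fun i j => π i j = true := by
  refine ⟨fun i => ?_, fun {i j} hij => ?_, fun {i j l} hij hjl => ?_⟩
  · exact (h.2 i i).1 (par_refl _)
  · exact (h.2 j i).1 (par_symm ((h.2 i j).2 hij))
  · exact (h.2 i l).1 (par_trans (h.1 j) ((h.2 i j).2 hij) ((h.2 j l).2 hjl))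

theorem s11_rs_TInv (π : Fin N → Fin N → Bool) (Φ : Tup N k → ℝ) (h : TInv Φ) :
    TInv (rs π Φ) := by
  classical
  intro c hc χ
  unfold rs
  by_cases h1 : HasPat π χ
  · rw [if_pos h1, if_pos (h1.smul hc), h c hc]
  · have h2 : ¬ HasPat π (fun i => c i • χ i) := by
      intro h2
      apply h1
      have h3 := h2.smul (c := fun i => (c i)⁻¹) (fun i => inv_ne_zero (hc i))
      have h4 : (fun i => (c i)⁻¹ • (c i • χ i)) = χ := by
        funext i
        rw [smul_smul, inv_mul_cancel₀ (hc i), one_smul]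
      rwa [h4] at h3
    rw [if_neg h1, if_neg h2]

theorem s11_rs_sq_le (π : Fin N → Fin N → Bool) (Φ : Tup N k → ℝ) (χ : Tup N k) :
    rs π Φ χ ^ 2 ≤ Φ χ ^ 2 := by
  unfold rs
  split_ifs
  · exact le_rfl
  · rw [zero_pow two_ne_zero]
    exact sq_nonneg _

theorem s11_nr_rs_le (π : Fin N → Fin N → Bool) (Φ : Tup N k → ℝ) : nr (rs π Φ) ≤ nr Φ :=
  Finset.sum_le_sum fun χ _ => s11_rs_sq_le π Φ χ

end

/-- The bound for one pattern. -/
theorem s11_pattern (p : ℕ) [Fact p.Prime] (r : ℕ) (π : Fin (r + 2) → Fin (r + 2) → Bool) :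
    ∃ C : ℝ, 0 ≤ C ∧ ∀ (k : Type) [Field k] [Fintype k] [DecidableEq k] [Algebra (ZMod p) k]
      (Φ : Tup (r + 2) k → ℝ) (ε : ℝ), 0 ≤ ε → Adm0 Φ → Pencil p Φ →
      (∀ (π π' : Fin (r + 2) → Fin (r + 2) → Bool)
        (g ginv : Matrix (Fin (r + 2)) (Fin (r + 2)) (ZMod p)), g * ginv = 1 → ¬ BP π g →
        |ip (rs π Φ) (fun χ => rs π' Φ (act (bc g) χ))| ≤ ε * nr Φ) →
      nr (rs π Φ) ≤ (C * (Fintype.card (Fin (r + 2) → Fin (r + 2) → Bool) * ε +
        Real.sqrt ((p : ℝ) ^ (r + 2) / (qq k - 1))) + (p : ℝ) ^ (r + 2) / (qq k - 1)) * nr Φ := by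
  classical
  by_cases hπ : Equivalence fun i j => π i j = true
  swap
  · refine ⟨0, le_rfl, fun k _ _ _ _ Φ ε hε hΦ hP _ => ?_⟩
    have hq : 0 < qq k - 1 := sub_pos.2 s11_q
    have h1 : nr (rs π Φ) = 0 := by
      unfold nr
      refine Finset.sum_eq_zero fun χ _ => ?_
      have h2 : ¬ HasPat π χ := fun h => hπ (s11_pat_equiv h)
      unfold rs
      rw [if_neg h2, zero_pow two_ne_zero]
    rw [h1, zero_mul, zero_add]
    exact mul_nonneg (by positivity) (nr_nonneg _)
  by_cases h0 : ∃ j, π 0 j = false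
  swap
  · refine ⟨0, le_rfl, fun k _ _ _ _ Φ ε hε hΦ hP _ => ?_⟩
    have hq : 0 < qq k - 1 := sub_pos.2 s11_q
    have h1 : nr (rs π Φ) = 0 := by
      unfold nr
      refine Finset.sum_eq_zero fun χ _ => ?_
      by_cases h2 : HasPat π χ
      · have h3 : ∀ j, ∃ c : k, χ j = c • χ 0 := by
          intro j
          apply exists_smul_of_par (h2.1 0)
          rw [h2.2 0 j]
          by_contra h3
          exact h0 ⟨j, by simpa using h3⟩
        choose c hc using h3
        have h4 : ∀ j, c j ≠ 0 := by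
          intro j hj
          apply h2.1 j
          rw [hc j, hj, zero_smul]
        have h5 : Φ χ = 0 := by
          have h6 : χ = fun j => c j • (fun _ : Fin (r + 2) => χ 0) j := funext hc
          rw [h6, hΦ.scale c h4, hΦ.diag]
        unfold rs
        rw [if_pos h2, h5, zero_pow two_ne_zero]
      · unfold rs
        rw [if_neg h2, zero_pow two_ne_zero]
    rw [h1, zero_mul, zero_add]
    exact mul_nonneg (by positivity) (nr_nonneg _)
  obtain ⟨co, M, hM, hco, hrel⟩ := main_rel p r π hπ h0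
  refine ⟨∑ g, |co g|, Finset.sum_nonneg fun _ _ => abs_nonneg _,
    fun k _ _ _ _ Φ ε hε hΦ hP hkey => ?_⟩
  have hq : 0 < qq k - 1 := sub_pos.2 s11_q
  set n := nr Φ with hn
  have hn0 : 0 ≤ n := nr_nonneg _
  set a := rs π Φ with ha
  have haT : TInv a := s11_rs_TInv π Φ hΦ.scale
  have ha0 : ∀ χ i, χ i = 0 → a χ = 0 := by
    intro χ i hi
    have h2 : ¬ HasPat π χ := fun h => h.1 i hi
    rw [ha]
    unfold rs
    rw [if_neg h2]
  set D : ℝ := (p : ℝ) ^ (r + 2) / (qq k - 1) with hD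
  have hD0 : 0 ≤ D := by positivity
  set P : ℝ := (Fintype.card (Fin (r + 2) → Fin (r + 2) → Bool) : ℝ) with hPdef
  have hnf : ∑ χ, (if Full p χ then 0 else a χ ^ 2) ≤ D * n :=
    (s11_notfull p a haT ha0).trans
      (mul_le_mul_of_nonneg_left (s11_nr_rs_le π Φ) hD0)
  -- bound for one matrix
  have hg : ∀ g, co g ≠ 0 → |∑ χ, (if Full p χ then a χ * Φ (act (bc g) χ) else 0)| ≤
      (P * ε + Real.sqrt D) * n := by
    intro g hg
    obtain ⟨⟨ginv, hginv⟩, hbp⟩ := hco g hg
    have hbc1 : bc (k := k) g * bc ginv = 1 := by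
      unfold bc
      rw [← Matrix.map_mul, hginv, Matrix.map_one _ (map_zero _) (map_one _)]
    have e1 : ∑ χ, (if Full p χ then a χ * Φ (act (bc g) χ) else 0) =
        ip a (fun χ => Φ (act (bc g) χ)) -
          ip (fun χ => if Full p χ then 0 else a χ) (fun χ => Φ (act (bc g) χ)) := by
      unfold ip
      rw [← Finset.sum_sub_distrib]
      refine Finset.sum_congr rfl fun χ _ => ?_
      by_cases hf : Full p χ
      · simp only [if_pos hf]
        ring
      · simp only [if_neg hf]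
        ring
    have e2 : |ip a (fun χ => Φ (act (bc g) χ))| ≤ P * ε * n := by
      have h1 : ip a (fun χ => Φ (act (bc g) χ)) =
          ∑ π' : Fin (r + 2) → Fin (r + 2) → Bool, ip a (fun χ => rs π' Φ (act (bc g) χ)) := by
        unfold ip
        rw [Finset.sum_comm]
        refine Finset.sum_congr rfl fun χ _ => ?_
        rw [← Finset.mul_sum]
        congr 1
        exact (s11_sum Φ hΦ.zero id rfl (act (bc g) χ)).symm
      rw [h1]
      refine (Finset.abs_sum_le_sum_abs _ _).trans ?_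
      refine (Finset.sum_le_sum fun π' _ => hkey π π' g ginv hginv hbp).trans ?_
      rw [Finset.sum_const, nsmul_eq_mul, Finset.card_univ, mul_assoc]
    have e3 : |ip (fun χ => if Full p χ then 0 else a χ) (fun χ => Φ (act (bc g) χ))| ≤
        Real.sqrt D * n := by
      refine (abs_ip_le _ _).trans ?_
      rw [nr_act hbc1]
      have h1 : nr (fun χ => if Full p χ then 0 else a χ) ≤ D * n := by
        refine le_trans (le_of_eq ?_) hnf
        unfold nr
        refine Finset.sum_congr rfl fun χ _ => ?_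
        by_cases hf : Full p χ
        · simp only [if_pos hf]
          rw [zero_pow two_ne_zero]
        · simp only [if_neg hf]
      calc Real.sqrt (nr (fun χ => if Full p χ then 0 else a χ)) * Real.sqrt (nr Φ)
          ≤ Real.sqrt (D * n) * Real.sqrt n :=
            mul_le_mul (Real.sqrt_le_sqrt h1) le_rfl (Real.sqrt_nonneg _) (Real.sqrt_nonneg _)
        _ = Real.sqrt D * n := by
            rw [Real.sqrt_mul hD0, mul_assoc, Real.mul_self_sqrt hn0]
    rw [e1]
    refine (abs_sub _ _).trans ?_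
    linarith
  -- the main identity
  have hmain : M * ∑ χ, (if Full p χ then a χ ^ 2 else 0) =
      ∑ g, co g * ∑ χ, (if Full p χ then a χ * Φ (act (bc g) χ) else 0) := by
    have h1 : ∀ χ, M * (if Full p χ then a χ ^ 2 else 0) =
        ∑ g, co g * (if Full p χ then a χ * Φ (act (bc g) χ) else 0) := by
      intro χ
      by_cases hf : Full p χ
      · simp only [if_pos hf]
        by_cases hpat : HasPat π χ
        · have h2 := hrel k Φ hΦ hP χ hpat hf
          have h3 : a χ = Φ χ := by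
            rw [ha]
            unfold rs
            rw [if_pos hpat]
          rw [h3]
          calc M * Φ χ ^ 2 = (M * Φ χ) * Φ χ := by ring
            _ = ∑ g, co g * (Φ χ * Φ (act (bc g) χ)) := by
              rw [h2, Finset.sum_mul]
              exact Finset.sum_congr rfl fun g _ => by ring
        · have h3 : a χ = 0 := by
            rw [ha]
            unfold rs
            rw [if_neg hpat]
          rw [h3]
          simp
      · simp [if_neg hf]
    rw [Finset.mul_sum, Finset.sum_congr rfl fun χ _ => h1 χ, Finset.sum_comm]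
    exact Finset.sum_congr rfl fun g _ => by rw [Finset.mul_sum]
  have hfull0 : 0 ≤ ∑ χ, (if Full p χ then a χ ^ 2 else 0) :=
    Finset.sum_nonneg fun χ _ => by split_ifs; exacts [sq_nonneg _, le_rfl]
  have hfull : ∑ χ, (if Full p χ then a χ ^ 2 else 0) ≤
      (∑ g, |co g|) * ((P * ε + Real.sqrt D) * n) := by
    calc ∑ χ, (if Full p χ then a χ ^ 2 else 0)
        ≤ M * ∑ χ, (if Full p χ then a χ ^ 2 else 0) := le_mul_of_one_le_left hfull0 hM
      _ = ∑ g, co g * ∑ χ, (if Full p χ then a χ * Φ (act (bc g) χ) else 0) := hmain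
      _ ≤ ∑ g, |co g| * ((P * ε + Real.sqrt D) * n) := by
          refine Finset.sum_le_sum fun g _ => ?_
          by_cases h1 : co g = 0
          · rw [h1, zero_mul, abs_zero, zero_mul]
          · refine (le_abs_self _).trans ?_
            rw [abs_mul]
            exact mul_le_mul_of_nonneg_left (hg g h1) (abs_nonneg _)
      _ = _ := by rw [Finset.sum_mul]
  have hsplit : nr a = ∑ χ, (if Full p χ then a χ ^ 2 else 0) +
      ∑ χ, (if Full p χ then 0 else a χ ^ 2) := by
    unfold nr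
    rw [← Finset.sum_add_distrib]
    refine Finset.sum_congr rfl fun χ _ => ?_
    split_ifs <;> ring
  rw [hsplit]
  calc _ ≤ (∑ g, |co g|) * ((P * ε + Real.sqrt D) * n) + D * n := add_le_add hfull hnf
    _ = _ := by ring

theorem vanish (p : ℕ) [Fact p.Prime] (r : ℕ) : ∃ Q₀ : ℕ,
    ∀ (k : Type) [Field k] [Fintype k] [DecidableEq k] [Algebra (ZMod p) k],
      Q₀ ≤ Fintype.card k → ∀ Φ : Tup (r + 2) k → ℝ, Adm0 Φ → Pencil p Φ →
        ∀ χ, Φ χ = 0 := by
  classical
  choose C hC0 hC using s11_pattern p r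
  set P : ℝ := (Fintype.card (Fin (r + 2) → Fin (r + 2) → Bool) : ℝ) with hPdef
  have hP1 : 0 < P := by
    rw [hPdef]
    exact_mod_cast Fintype.card_pos
  set Ct : ℝ := ∑ π, C π with hCt
  have hCt0 : 0 ≤ Ct := Finset.sum_nonneg fun π _ => hC0 π
  set ε : ℝ := 1 / (4 * (Ct + 1) * P) with hεdef
  have hε : 0 < ε := by positivity
  obtain ⟨Q₁, hQ₁⟩ := key_est p r ε hε
  set A : ℝ := (p : ℝ) ^ (r + 2) with hA
  have hp : (0 : ℝ) < p := by exact_mod_cast (Fact.out : p.Prime).pos
  have hA0 : 0 < A := by positivity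
  obtain ⟨Q₂, hQ₂⟩ := exists_nat_gt (A * (16 * (Ct + 1) ^ 2) + A * (4 * P) + 1)
  refine ⟨max Q₁ Q₂, fun k _ _ _ _ hQ Φ hΦ hPen => ?_⟩
  have hq : 0 < qq k - 1 := sub_pos.2 s11_q
  have hQ2 : A * (16 * (Ct + 1) ^ 2) + A * (4 * P) ≤ qq k - 1 := by
    have h1 : (Q₂ : ℝ) ≤ qq k := by
      unfold qq
      exact_mod_cast (le_max_right _ _).trans hQ
    linarith
  have hkey := hQ₁ k ((le_max_left _ _).trans hQ) Φ hΦ
  set n := nr Φ with hn
  have hn0 : 0 ≤ n := nr_nonneg _
  set D : ℝ := A / (qq k - 1) with hD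
  have hD0 : 0 ≤ D := by positivity
  have hD1 : D ≤ 1 / (16 * (Ct + 1) ^ 2) := by
    rw [hD, div_le_div_iff₀ hq (by positivity), one_mul]
    have : 0 ≤ A * (4 * P) := by positivity
    linarith
  have hD2 : D ≤ 1 / (4 * P) := by
    rw [hD, div_le_div_iff₀ hq (by positivity), one_mul]
    have : 0 ≤ A * (16 * (Ct + 1) ^ 2) := by positivity
    linarith
  have hD3 : Real.sqrt D ≤ 1 / (4 * (Ct + 1)) := by
    apply Real.sqrt_le_iff.2
    refine ⟨by positivity, hD1.trans (le_of_eq ?_)⟩
    field_simp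
    norm_num
  have h1 : n = ∑ π : Fin (r + 2) → Fin (r + 2) → Bool, nr (rs π Φ) := by
    rw [hn]
    unfold nr
    rw [Finset.sum_comm]
    refine Finset.sum_congr rfl fun χ _ => ?_
    exact (s11_sum Φ hΦ.zero (fun x => x ^ 2) (by norm_num) χ).symm
  have h2 : n ≤ (Ct * (P * ε + Real.sqrt D) + P * D) * n := by
    calc n = ∑ π : Fin (r + 2) → Fin (r + 2) → Bool, nr (rs π Φ) := h1
      _ ≤ ∑ π : Fin (r + 2) → Fin (r + 2) → Bool, (C π * (P * ε + Real.sqrt D) + D) * n :=
          Finset.sum_le_sum fun π _ => hC π k Φ ε hε.le hΦ hPen hkey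
      _ = (Ct * (P * ε + Real.sqrt D) + P * D) * n := by
          rw [← Finset.sum_mul, Finset.sum_add_distrib, ← Finset.sum_mul, Finset.sum_const,
            nsmul_eq_mul, Finset.card_univ]
  have h3 : Ct * (P * ε + Real.sqrt D) + P * D ≤ 3 / 4 := by
    have e1 : P * ε = 1 / (4 * (Ct + 1)) := by
      rw [hεdef]
      field_simp
    have e2 : Ct * (P * ε + Real.sqrt D) ≤ Ct * (1 / (4 * (Ct + 1)) + 1 / (4 * (Ct + 1))) := by
      rw [e1]
      exact mul_le_mul_of_nonneg_left (by linarith) hCt0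
    have e3 : Ct * (1 / (4 * (Ct + 1)) + 1 / (4 * (Ct + 1))) ≤ 1 / 2 := by
      have e4 : Ct * (1 / (4 * (Ct + 1)) + 1 / (4 * (Ct + 1))) = (Ct / (Ct + 1)) / 2 := by
        field_simp
        ring
      rw [e4]
      have e5 : Ct / (Ct + 1) ≤ 1 := by
        rw [div_le_one (by positivity)]
        linarith
      linarith
    have e6 : P * D ≤ 1 / 4 := by
      calc P * D ≤ P * (1 / (4 * P)) := mul_le_mul_of_nonneg_left hD2 hP1.le
        _ = 1 / 4 := by field_simp
    linarith
  have h4 : n = 0 := by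
    have h5 : (Ct * (P * ε + Real.sqrt D) + P * D) * n ≤ 3 / 4 * n :=
      mul_le_mul_of_nonneg_right h3 hn0
    linarith
  intro χ
  have h5 : Φ χ ^ 2 = 0 := by
    have h6 := (Finset.sum_eq_zero_iff_of_nonneg (fun χ _ => sq_nonneg (Φ χ))).1
      (show ∑ χ, Φ χ ^ 2 = 0 from h4)
    exact h6 χ (Finset.mem_univ _)
  exact pow_eq_zero_iff two_ne_zero |>.1 h5

end

end PL
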